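import Mathlib

/-!
# Critical zeros of twists of automorphic `L`-functions of degree at most 4: definitions
-/

namespace Pool.Agent.G4

open Complex MeasureTheory Filter Topology

/-- The parity of a Dirichlet character: `0` if it is even, `1` if it is odd. -/
noncomputable def par {q : ℕ} (χ : DirichletCharacter ℂ q) : Fin 2 :=
  open Classical in if χ.Odd then 1 else 0

/-- A system of degree `m` which can be twisted by Dirichlet characters: the analytic properties of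
a (unitary) cuspidal automorphic representation `π` of `GL_m` over `ℚ`.  Every field is a published
theorem for every cuspidal `π` with `1 ≤ m ≤ 4`; see the comments at the fields. -/
structure Sys (m : ℕ) where
  /-- The coefficients of the Dirichlet series `L(s, π) = ∑ a(n) n^{-s}`. -/
  a : ℕ → ℂ
  /-- The conductor of `π`. -/
  N : ℕ
  /-- The Satake parameters: `L(s, π) = ∏_p ∏_j (1 - α_j(p) p^{-s})⁻¹` (some of them vanish at the
  primes dividing the conductor). -/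
  α : ℕ → Fin m → ℂ
  /-- The archimedean parameters of the twists by even (`0`) and odd (`1`) Dirichlet characters,
  `L(s, π_∞ ⊗ sgn^δ) = ∏_j Γ_ℝ(s - μ_j(δ))`. -/
  μ : Fin 2 → Fin m → ℂ
  /-- The conductor is positive. -/
  N_pos : 0 < N
  /-- Convention for `n = 0`. -/
  a_zero : a 0 = 0
  /-- `a` is multiplicative (Godement-Jacquet 1972). -/
  a_one : a 1 = 1
  /-- `a` is multiplicative (Godement-Jacquet 1972). -/
  a_mul : ∀ k n : ℕ, k.Coprime n → a (k * n) = a k * a n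
  /-- The bound `|α_j(p)| < p^{1/2}` of Jacquet and Shalika (1981). -/
  α_lt : ∀ p : ℕ, p.Prime → ∀ j, ‖α p j‖ < √p
  /-- The Euler factors, `∑_k a(p^k) z^k = ∏_j (1 - α_j(p) z)⁻¹` (Godement-Jacquet 1972). -/
  euler : ∀ p : ℕ, p.Prime → ∀ z : ℂ, ‖z‖ ≤ (√p)⁻¹ →
    HasSum (fun k : ℕ => a (p ^ k) * z ^ k) (∏ j, (1 - α p j * z))⁻¹
  /-- The bound `Re μ_j < 1/2` of Jacquet and Shalika (1981) at the archimedean place. -/
  μ_lt : ∀ δ j, (μ δ j).re < 1 / 2
  /-- Rankin-Selberg theory (Jacquet, Piatetski-Shapiro, Shalika 1983): `∑_{n ≤ x} |a(n)|² ≤ C x`.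
  (For `(n, N) = 1`, `|a(n)|²` is at most the coefficient of `L(s, π × π~)`, which has a simple pole
  at `s = 1`; the finitely many other primes are harmless by `α_lt`.) -/
  rs : ∃ C : ℝ, ∀ x : ℕ, ∑ n ∈ Finset.Icc 1 x, ‖a n‖ ^ 2 ≤ C * x
  /-- The pole of `L(s, π × π~)` at `s = 1` (Jacquet-Shalika 1981); the prime powers `p^k`, `k ≥ 2`,
  contribute a bounded amount by `hyp`. -/
  div : ¬ Summable fun p : Nat.Primes => ‖a p‖ ^ 2 / (p : ℝ)
  /-- Hypothesis H of Rudnick and Sarnak: `∑_p |∑_j α_j(p)^k|² (log p)² / p^k < ∞` for each `k ≥ 2`;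
  a theorem for `m ≤ 3` (Rudnick-Sarnak 1996) and `m = 4` (Kim-Sarnak 2003, Kim 2006).  For
  `k > (m² + 1) / 2` the sum over all `p` and all these `k` converges by the bound
  `|α_j(p)| ≤ p^{1/2 - 1/(m² + 1)}` of Luo, Rudnick and Sarnak (1999). -/
  hyp : Summable fun z : Nat.Primes × ℕ =>
    ‖∑ j, α z.1 j ^ (z.2 + 2)‖ ^ 2 / (z.1 : ℝ) ^ (z.2 + 2)
  /-- Every twist by a primitive character `χ` modulo `q > 1`, `(q, N) = 1`, has a completed
  `L`-function which is entire, bounded in vertical strips and satisfies a functional equation of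
  conductor `N q^m` (Godement-Jacquet 1972, for the cuspidal representation `π ⊗ χ`). -/
  fe : ∀ q : ℕ, 1 < q → q.Coprime N → ∀ χ : DirichletCharacter ℂ q, χ.IsPrimitive →
    ∃ (Λ : ℂ → ℂ) (W : ℂ), Differentiable ℂ Λ ∧ ‖W‖ = 1 ∧
      (∀ A B : ℝ, ∃ C : ℝ, ∀ s : ℂ, A ≤ s.re → s.re ≤ B → ‖Λ s‖ ≤ C) ∧
      (∀ s : ℂ, Λ s = W * starRingEnd ℂ (Λ (1 - starRingEnd ℂ s))) ∧
      ∀ s : ℂ, 1 < s.re → Λ s = ((N : ℂ) * (q : ℂ) ^ m) ^ (s / 2) *
        (∏ j, Gammaℝ (s - μ (par χ) j)) * LSeries (fun n => a n * χ n) s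

variable {m : ℕ}

/-- The gamma factor. -/
noncomputable def Sys.gam (S : Sys m) (δ : Fin 2) (s : ℂ) : ℂ := ∏ j, Gammaℝ (s - S.μ δ j)

/-- `Λ` is the completed `L`-function of the twist by `χ`: it is entire, and equal to
`(N q^m)^{s/2} ∏_j Γ_ℝ(s - μ_j) ∑ a(n) χ(n) n^{-s}` for `Re s > 1`. -/
def IsLam (S : Sys m) {q : ℕ} (χ : DirichletCharacter ℂ q) (Λ : ℂ → ℂ) : Prop :=
  Differentiable ℂ Λ ∧ ∀ s : ℂ, 1 < s.re → Λ s = ((S.N : ℂ) * (q : ℂ) ^ m) ^ (s / 2) *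
    (∏ j, Gammaℝ (s - S.μ (par χ) j)) * LSeries (fun n => S.a n * χ n) s

/-- a Dirichlet character of conductor at least 2: `(k, χ)` with `χ` modulo `k + 2` -/
abbrev Ix : Type := Σ k : ℕ, DirichletCharacter ℂ (k + 2)

/-- the modulus -/
def Ix.q (x : Ix) : ℕ := x.1 + 2

/-- the values of the character -/
noncomputable def ev (x : Ix) (n : ℕ) : ℂ := x.2 (n : ZMod (x.1 + 2))

/-- all primitive characters of modulus `q` with `2 ≤ q ≤ Q` coprime to `N` -/
noncomputable def pairs (N Q : ℕ) : Finset Ix :=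
  open Classical in ((Finset.range (Q - 1)).filter (fun k => (k + 2).Coprime N)).sigma
    (fun _ => Finset.univ.filter (fun χ => χ.IsPrimitive))

/-- `b` has bounded mean square -/
def RSB (b : ℕ → ℂ) (C : ℝ) : Prop := ∀ x : ℕ, ∑ n ∈ Finset.Icc 1 x, ‖b n‖ ^ 2 ≤ C * x

/-- `K` decays faster than exponentially at `+∞`, and like `exp (κ' u)`, `κ' < κ`, at `-∞` -/
structure IsKer (κ : ℝ) (K : ℝ → ℂ) : Prop where
  cont : Continuous K
  le : ∀ A : ℝ, -κ < A → ∃ C : ℝ, ∀ u : ℝ, ‖K u‖ ≤ C * Real.exp (-A * u)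

/-- the kernels of a system -/
structure Kers (S : Sys m) where
  κ : ℝ
  K : Fin 2 → ℝ → ℂ
  κ_pos : 0 < κ
  isKer : ∀ δ, IsKer κ (K δ)
  mellin : ∀ δ, ∀ z : ℂ, -κ < z.re → ∫ u : ℝ, K δ u * cexp (z * u) = S.gam δ (1 / 2 + z)
  decay : ∀ δ, ∀ σ : ℝ, -κ < σ → ∃ C : ℝ, ∀ t : ℝ, ‖S.gam δ (1 / 2 + σ + t * I)‖ ≤ C / (1 + t ^ 2)

/-- the density `∑ b(n) χ(n) n^{-1/2} K(u + log n)` -/
noncomputable def D (b : ℕ → ℂ) (K : ℝ → ℂ) (x : Ix) (u : ℝ) : ℂ :=
  ∑' n : ℕ, b n * ev x n * (((√(n : ℝ))⁻¹ : ℝ) : ℂ) * K (u + Real.log n)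

/-- the density of the twist `x` of the system -/
noncomputable def Dx {S : Sys m} (k : Kers S) (x : Ix) (u : ℝ) : ℂ := D S.a (k.K (par x.2)) x u

/-- half of the logarithm of the conductor of the twist -/
noncomputable def ell (S : Sys m) (x : Ix) : ℝ := (Real.log S.N + m * Real.log (x.1 + 2 : ℕ)) / 2

/-- half of the logarithm of the largest conductor -/
noncomputable def ellQ (S : Sys m) (Q : ℕ) : ℝ := (Real.log S.N + m * Real.log Q) / 2

/-- the Laplace transform of the density: it is `γ(1/2 + z) L(1/2 + z)` -/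
noncomputable def Hf {S : Sys m} (k : Kers S) (x : Ix) (z : ℂ) : ℂ :=
  ∫ u : ℝ, Dx k x u * cexp (z * u)

/-- finite Euler product over the primes `p ≤ P` -/
noncomputable def LP (S : Sys m) (P : ℕ) (x : Ix) (s : ℂ) : ℂ :=
  ∏ p ∈ Nat.primesBelow (P + 1), (∏ j, (1 - S.α p j * (ev x p * (p : ℂ) ^ (-s))))⁻¹

/-- the sum over primes -/
noncomputable def Xs (S : Sys m) (P : ℕ) (η : ℝ) (x : Ix) (t : ℝ) : ℝ :=
  (∑ p ∈ Nat.primesBelow (P + 1), S.a p * ev x p * (p : ℂ) ^ (-(1 / 2 + η + t * I : ℂ))).re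

/-- the rest of the logarithm of the Euler product -/
noncomputable def Y2 (S : Sys m) (P : ℕ) (η : ℝ) (x : Ix) (t : ℝ) : ℝ :=
  Real.log ‖LP S P x (1 / 2 + η + t * I)‖ - Xs S P η x t

/-- Fourier transform of a weight -/
noncomputable def hatw (w : ℝ → ℝ) (u : ℝ) : ℂ := ∫ t : ℝ, (w t : ℂ) * cexp (t * u * I)

/-- the variance -/
noncomputable def VV (S : Sys m) (P : ℕ) (η : ℝ) : ℝ :=
  ∑ p ∈ Nat.primesBelow (P + 1), ‖S.a p‖ ^ 2 * (p : ℝ) ^ (-1 - 2 * η)

/-- `p ≤ P` for all prime factors -/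
def smo (P n : ℕ) : Prop := ∀ p : ℕ, p.Prime → p ∣ n → p ≤ P

end Pool.Agent.G4
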